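import Pool.Agent.helper83.ORE.SpecDE

/-!
# Row EX4 (MP_561ff4_al)
-/

set_option autoImplicit false

namespace Pool.Agent.ORE

open Module Pool.Agent.GS

noncomputable section

private lemma EX4_yy {F V : Type} [Field F] [AddCommGroup V] [Module F V] (h2 : (2 : F) = 0)
    (y : Equiv.Perm V) (τ : F) (hy : ∀ v, y v + y⁻¹ v = τ • v) (v : V) :
    v = y (y v) + τ • y v := by
  have h := hy (y v)
  have h1 : y⁻¹ (y v) = v := by simp
  rw [h1] at h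
  rw [← h, ← add_assoc, addV h2, zero_add]

private lemma EX4_swap {F V : Type} [Field F] [AddCommGroup V] [Module F V]
    (Q : QuadraticForm F V) (h2 : (2 : F) = 0) (y : Equiv.Perm V) (hyQ : y ∈ OQ Q)
    (hq : ∀ v, Q v = 0 → pb Q v (y v) = 0) (a b : V) (ha : Q a = 0) (hb : Q b = 0)
    (hab : pb Q a b = 0) : pb Q b (y a) = pb Q a (y b) := by
  have h1 : Q (a + b) = 0 := by rw [Q_add, ha, hb, hab]; ring
  have h3 := hq (a + b) h1
  rw [hyQ.1.1, map_add, map_add, LinearMap.add_apply, LinearMap.add_apply, hq a ha, hq b hb,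
    zero_add, add_zero] at h3
  exact eq_of_add2 h2 h3

private lemma EX4_main {F V : Type} [Field F] [AddCommGroup V] [Module F V]
    [FiniteDimensional F V] (Q : QuadraticForm F V) (h2 : (2 : F) = 0) (hN : Nd Q)
    (h8 : 8 ≤ finrank F V) (y : Equiv.Perm V) (hyQ : y ∈ OQ Q) (τ : F)
    (hy : ∀ v, y v + y⁻¹ v = τ • v) (a₁ a₂ : V) (h12 : pb Q a₁ a₂ = 0)
    (h11 : pb Q a₁ (y a₁) = 0) (h22 : pb Q a₂ (y a₂) = 0) (e12 : pb Q a₁ (y a₂) = 1)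
    (e21 : pb Q a₂ (y a₁) = 1) :
    ∃ Z : Submodule F V, (∀ z, z ∈ Z ↔ pb Q a₁ z = 0 ∧ pb Q a₂ z = 0 ∧ pb Q (y a₁) z = 0 ∧
      pb Q (y a₂) z = 0) ∧ (∀ z ∈ Z, y z ∈ Z) ∧
      (∀ x ∈ Z, (∀ z ∈ Z, pb Q x z = 0) → x = 0) ∧ 3 ≤ finrank F Z := by
  let Z : Submodule F V := LinearMap.ker (pb Q a₁) ⊓ (LinearMap.ker (pb Q a₂) ⊓
    (LinearMap.ker (pb Q (y a₁)) ⊓ LinearMap.ker (pb Q (y a₂))))
  have hZ : ∀ z, z ∈ Z ↔ pb Q a₁ z = 0 ∧ pb Q a₂ z = 0 ∧ pb Q (y a₁) z = 0 ∧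
      pb Q (y a₂) z = 0 := by
    intro z
    simp only [Z, Submodule.mem_inf, LinearMap.mem_ker]
  have hyy12 : pb Q (y a₁) (y a₂) = 0 := by rw [OQ_pb hyQ, h12]
  have s21 : pb Q a₂ a₁ = 0 := by rw [pb_symm, h12]
  have syy21 : pb Q (y a₂) (y a₁) = 0 := by rw [pb_symm, hyy12]
  have s11 : pb Q (y a₁) a₁ = 0 := by rw [pb_symm, h11]
  have s22 : pb Q (y a₂) a₂ = 0 := by rw [pb_symm, h22]
  have f21 : pb Q (y a₂) a₁ = 1 := by rw [pb_symm, e12]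
  have f12 : pb Q (y a₁) a₂ = 1 := by rw [pb_symm, e21]
  -- decomposition
  have hdec : ∀ v : V, v + (pb Q v (y a₂) • a₁ + pb Q v (y a₁) • a₂ + pb Q v a₂ • y a₁ +
      pb Q v a₁ • y a₂) ∈ Z := by
    intro v
    rw [hZ]
    simp only [map_add, map_smul, smul_eq_mul, pb_self2 h2, h12, s21, h11, h22, e12, e21, s11,
      s22, f12, f21, hyy12, syy21, mul_zero, mul_one, add_zero, zero_add]
    refine ⟨?_, ?_, ?_, ?_⟩
    · rw [pb_symm Q a₁ v]; exact add2 h2 _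
    · rw [pb_symm Q a₂ v]; exact add2 h2 _
    · rw [pb_symm Q (y a₁) v]; exact add2 h2 _
    · rw [pb_symm Q (y a₂) v]; exact add2 h2 _
  refine ⟨Z, hZ, ?_, ?_, ?_⟩
  · intro z hz
    rw [hZ] at hz
    obtain ⟨z1, z2, z3, z4⟩ := hz
    rw [hZ]
    refine ⟨?_, ?_, ?_, ?_⟩
    · have h := EX4_yy h2 y τ hy a₁
      have h3 : pb Q a₁ (y z) = pb Q (y (y a₁) + τ • y a₁) (y z) := by rw [← h]
      rw [h3, map_add, LinearMap.add_apply, map_smul, LinearMap.smul_apply, OQ_pb hyQ, OQ_pb hyQ,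
        z1, z3, smul_zero, add_zero]
    · have h := EX4_yy h2 y τ hy a₂
      have h3 : pb Q a₂ (y z) = pb Q (y (y a₂) + τ • y a₂) (y z) := by rw [← h]
      rw [h3, map_add, LinearMap.add_apply, map_smul, LinearMap.smul_apply, OQ_pb hyQ, OQ_pb hyQ,
        z2, z4, smul_zero, add_zero]
    · rw [OQ_pb hyQ, z1]
    · rw [OQ_pb hyQ, z2]
  · intro x hx hz
    apply hN
    intro v
    have h3 := hz _ (hdec v)
    rw [hZ] at hx
    obtain ⟨x1, x2, x3, x4⟩ := hx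
    simp only [map_add, map_smul, smul_eq_mul] at h3
    rw [pb_symm Q x a₁, pb_symm Q x a₂, pb_symm Q x (y a₁), pb_symm Q x (y a₂), x1, x2, x3, x4]
      at h3
    simpa using h3
  · let D : Submodule F V := Submodule.span F (Set.range ![a₁, a₂, y a₁, y a₂])
    have hD : finrank F D ≤ 4 := by
      have := finrank_range_le_card (R := F) ![a₁, a₂, y a₁, y a₂]
      rw [Fintype.card_fin] at this
      exact this
    have m0 : a₁ ∈ D := Submodule.subset_span ⟨0, rfl⟩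
    have m1 : a₂ ∈ D := Submodule.subset_span ⟨1, rfl⟩
    have m2 : y a₁ ∈ D := Submodule.subset_span ⟨2, rfl⟩
    have m3 : y a₂ ∈ D := Submodule.subset_span ⟨3, rfl⟩
    have htop : (⊤ : Submodule F V) ≤ Z ⊔ D := by
      intro v _
      have h3 := Submodule.add_mem_sup (hdec v)
        (D.add_mem (D.add_mem (D.add_mem (D.smul_mem (pb Q v (y a₂)) m0)
          (D.smul_mem (pb Q v (y a₁)) m1)) (D.smul_mem (pb Q v a₂) m2))
          (D.smul_mem (pb Q v a₁) m3))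
      rw [add_assoc, addV h2, add_zero] at h3
      exact h3
    have h4 := Submodule.finrank_mono htop
    rw [finrank_top] at h4
    have h5 := Submodule.finrank_add_le_finrank_add_finrank Z D
    omega

theorem EX4 (exz : EXZ_stmt) (eqt : EQT_stmt) : EX4_stmt := by
  intro F V _ _ _ _ _ Q h2 hN h8 y hyQ τ hy hfix
  have hq := eqt Q h2 y hyQ τ hy hfix
  obtain ⟨a₁, -, a₂, -, q1, q2, h12, e12⟩ := exz Q h2 y hyQ τ hy hfix ⊤
    (fun _ _ => Submodule.mem_top) (fun x _ hx => hN x fun z => hx z Submodule.mem_top)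
    (by rw [finrank_top]; omega)
  have e21 : pb Q a₂ (y a₁) = 1 := by rw [EX4_swap Q h2 y hyQ hq a₁ a₂ q1 q2 h12, e12]
  obtain ⟨Z, hZ, hZy, hZn, hZ3⟩ := EX4_main Q h2 hN h8 y hyQ τ hy a₁ a₂ h12 (hq a₁ q1) (hq a₂ q2)
    e12 e21
  obtain ⟨a₃, z3, a₄, z4, q3, q4, h34, e34⟩ := exz Q h2 y hyQ τ hy hfix Z hZy hZn hZ3
  have e43 : pb Q a₄ (y a₃) = 1 := by rw [EX4_swap Q h2 y hyQ hq a₃ a₄ q3 q4 h34, e34]
  obtain ⟨b1, b2, b3, b4⟩ := (hZ a₃).1 z3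
  obtain ⟨c1, c2, c3, c4⟩ := (hZ a₄).1 z4
  obtain ⟨d1, d2, -, -⟩ := (hZ (y a₃)).1 (hZy _ z3)
  obtain ⟨g1, g2, -, -⟩ := (hZ (y a₄)).1 (hZy _ z4)
  refine ⟨a₁, a₂, a₃, a₄, q1, q2, q3, q4, h12, b1, c1, b2, c2, h34, hq a₁ q1, hq a₂ q2, hq a₃ q3,
    hq a₄ q4, e12, e21, e34, e43, d1, g1, d2, g2, ?_, ?_, ?_, ?_⟩
  · rw [pb_symm, b3]
  · rw [pb_symm, b4]
  · rw [pb_symm, c3]
  · rw [pb_symm, c4]

end

end Pool.Agent.ORE
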